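import Pool.Agent.N84.MD.E
import Pool.Agent.Results.MP_bbc1fa_nt.AlmostAllTuples

/-!
# The four exponentials conjecture along all good approximations, and along the digits, of almost every real tuple

For an integer `N`, an `n`-tuple `u` of integers and fixed rational numbers `x_1, …, x_k` let `Γ` be the multiplicative group
generated by `N` and the positive rational numbers `u_j + x_i N`. The four exponentials conjecture for `Γ`, quantitatively:
for all `2 × 2` matrices with entries in `Γ`, with exponents at most `N ^ A`, and with `ℚ`-linearly independent rows and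
`ℚ`-linearly independent columns of logarithms the determinant of the logarithms is greater than `N ^ (-B)` in absolute
value (in particular it is not zero).

The starting theorem `AlmostAllTuples` bounds, for each `N`, the number of the exceptional tuples `u` in `[a N, b N] ^ n`.
We prove that there are no exceptions at all, from some point on, along very sparse sequences of pairs `(N, u)`:

* for almost all `y` in `ℝⁿ`, all the approximations `u / N` of `y` with `|y_j - u_j / N| ≤ N ^ (- 1 - 1 / n)` (by Dirichlet's
  theorem there are infinitely many such `N` for every `y`; for `n = 1` all convergents of `y`), and even for some larger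
  errors; the exceptional `y` have Hausdorff dimension less than `n`;
* for almost all `y` in `ℝⁿ` the integer parts `u_j = [N y_j]` for `N = 10, 10 ^ 2, 10 ^ 3, …`, or any other sequence of
  integers of at least geometric growth, that is the digits of `y`; here `Γ` is generated by the truncations of the
  decimal expansions of the `y_j + x_i` and by `10`; the exceptional `y` have Hausdorff dimension less than `n`.

Proof: the starting theorem and the Hausdorff-Cantelli lemma (`Pool.Agent.N84.MD`).
-/

set_option autoImplicit false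

open Set Filter MeasureTheory
open scoped ENNReal

namespace Pool.Agent.Results.MP_bbc1fa_nt.ApproximationsOfRealTuples

open Pool.Agent.Results.MP_bbc1fa_nt.AlmostAllTuples (Products logMatrix)

/-- The four exponentials conjecture for the group generated by `N` and the `u_j + x_i N`: the determinant of every
`2 × 2` matrix `(log α_ij)` with `α_ij = N ^ c_0 ∏ (u_j + x_i N) ^ c_(j,i)`, integral exponents of absolute value at most
`N ^ A`, `ℚ`-linearly independent rows and `ℚ`-linearly independent columns is greater than `N ^ (-B)` in absolute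
value. -/
def FourExponentials {n k : ℕ} (x : Fin k → ℚ) (A B : ℝ) (N : ℕ) (u : Fin n → ℤ) : Prop :=
  ∀ α : Matrix (Fin 2) (Fin 2) ℚ, (∀ i j, α i j ∈ Products x N u ((N : ℝ) ^ A)) →
    LinearIndependent ℚ (fun i : Fin 2 => fun j : Fin 2 => logMatrix α i j) →
    LinearIndependent ℚ (fun j : Fin 2 => fun i : Fin 2 => logMatrix α i j) →
    (N : ℝ) ^ (-B) < |(logMatrix α).det|

/-- For all large `N` in `M` and all integers `u_j` in `[a N, b N]` with `|y_j - u_j / N| ≤ N ^ (-τ)` the four exponentials
conjecture holds for the group generated by `N` and the `u_j + x_i N`. -/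
def AllApproximations {n k : ℕ} (x : Fin k → ℚ) (a b A B τ : ℝ) (M : Set ℕ) (y : Fin n → ℝ) : Prop :=
  ∀ᶠ N : ℕ in atTop, N ∈ M → ∀ u : Fin n → ℤ,
    (∀ j, a * N ≤ u j ∧ u j ≤ b * N ∧ |y j - u j / N| ≤ (N : ℝ) ^ (-τ)) → FourExponentials x A B N u

/-- Let `x_1, …, x_k` be distinct rational numbers, `a < b` with `a + x_i > 0`, `n ≥ 1`, `A ≥ 0` and
`β > 1 - 1 / (3 ^ (k n) + 1)`. There is `B` such that for every set `M` of integers for which the sum of the `N ^ (-σ)`,
`N ∈ M`, converges, and all `τ > 0`, the property `AllApproximations` holds for all `y` in `ℝⁿ` but a set of Hausdorff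
dimension at most `(n - 1 + β + σ) / τ`.

If `n - 1 + β + σ < τ n` it holds for almost all `y`: for the set `M` of all integers one can take any `σ > 1`, and
`τ = 1 + 1 / n` or even somewhat smaller (`β < 1`); if `M` is a sequence of at least geometric growth one can take
any `σ > 0`, and `τ = 1` or even somewhat smaller. -/
theorem result (n k : ℕ) (hn : 1 ≤ n) (x : Fin k → ℚ) (hx : Function.Injective x) (a b : ℝ) (hab : a < b)
    (hpos : ∀ i, 0 < a + x i) (A β : ℝ) (hA : 0 ≤ A) (hβ : 1 - 1 / ((3 : ℝ) ^ (k * n) + 1) < β) :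
    ∃ B : ℝ, ∀ (M : Set ℕ) (σ τ : ℝ), 0 < σ → 0 < τ → Summable (fun N : M => ((N : ℕ) : ℝ) ^ (-σ)) →
      dimH {y : Fin n → ℝ | ¬ AllApproximations x a b A B τ M y} ≤ ENNReal.ofReal (((n : ℝ) - 1 + β + σ) / τ) ∧
      ((n : ℝ) - 1 + β + σ < τ * n → ∀ᵐ y : Fin n → ℝ, AllApproximations x a b A B τ M y) := by
  obtain ⟨B, C, h⟩ := Pool.Agent.Results.MP_bbc1fa_nt.AlmostAllTuples.result n k hn x hx a b hab hpos A β hA hβ
  have hn1 : (1 : ℝ) ≤ n := by exact_mod_cast hn
  have hβ0 : 0 ≤ β := by
    have h1 : 1 / ((3 : ℝ) ^ (k * n) + 1) ≤ 1 := by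
      rw [div_le_iff₀ (by positivity)]
      have : (0 : ℝ) ≤ (3 : ℝ) ^ (k * n) := by positivity
      linarith
    linarith
  have hs : 0 ≤ (n : ℝ) - 1 + β := by linarith
  refine ⟨B, fun M σ τ hσ hτ hM => ?_⟩
  have hdim := Pool.Agent.N84.MD.levels (X := Fin n) (S := Fin n → ℤ) (fun N u j => (u j : ℝ) / N)
    (fun N => Pool.Agent.Results.MP_bbc1fa_nt.AlmostAllTuples.Exceptional n x a b A B N) hs hσ hτ ⟨C, h⟩ M hM
  have hsub : {y : Fin n → ℝ | ¬ AllApproximations x a b A B τ M y} ⊆
      {y : Fin n → ℝ | ¬ ∀ᶠ N : ℕ in atTop, N ∈ M →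
        ∀ e ∈ Pool.Agent.Results.MP_bbc1fa_nt.AlmostAllTuples.Exceptional n x a b A B N,
          ¬ ∀ i, |y i - (fun (N : ℕ) (u : Fin n → ℤ) j => (u j : ℝ) / N) N e i| ≤ (N : ℝ) ^ (-τ)} := by
    intro y hy hy2
    apply hy
    filter_upwards [hy2] with N hN hNM u hu α h1 h2 h3
    by_contra hcon
    push Not at hcon
    exact hN hNM u ⟨fun j => ⟨(hu j).1, (hu j).2.1⟩, α, h1, h2, h3, hcon⟩ (fun j => (hu j).2.2)
  have hdim2 := le_trans (dimH_mono hsub) hdim
  refine ⟨hdim2, fun hlt => ?_⟩
  rw [ae_iff]
  refine Pool.Agent.N84.MD.null_of_dim hdim2 (by positivity) ?_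
  rw [div_lt_iff₀ hτ]
  linarith

end Pool.Agent.Results.MP_bbc1fa_nt.ApproximationsOfRealTuples
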