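import Pool.Agent.N671.DA.Mat
import Pool.Agent.Results.MP_bbc1fa_nt.RandomProducts

/-!
# Four exponentials at the best approximation vectors of systems of linear forms

Let `V` be a rational space of real numbers of dimension at most `m`, for instance `0` or the space generated by the
logarithms of `m` given rational numbers. For every `j ≤ n` let `q_{j,1}, …, q_{j,k}` be multiplicatively independent
positive rational numbers (for instance distinct primes), let `ζ_j` be an arbitrary real number, for instance `0`, and
`l_j = ζ_j + ∑_r a_{j,r} log q_{j,r}` with integers `a_{j,r}`, so `l_j` is the logarithm of the rational number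
`∏_r q_{j,r} ^ a_{j,r}` if `ζ_j = 0`. Let `α` be a real matrix with `n k` rows and `h` columns, `β` in `ℝ^h` and `τ > 0`. We
consider the integer vectors `a = (a_{j,r})` such that `‖(a α)_i - β_i‖ ≤ c |a| ^ (-τ)` for `i = 1, …, h`, `‖x‖` the distance
to the nearest integer and `|a|` the maximum norm; for `β = 0`, `c = 1` and `τ = n k / h` they include all best approximation
vectors of the system of linear forms `a α`, by the theorem of Minkowski. We show that for all `α` outside a set of
Hausdorff dimension at most `(n k - 1) h + (h + n k - δ k) / (1 + τ)`, which is less than `n k h` for `τ = n k / h`, and so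
for almost all `α`, the following is true for all large `a` of this kind: the space `V' = V + ℚ l_1 + ⋯ + ℚ l_n` has
dimension `dim V + n`, and every `2 × 2` matrix with entries in `V'`, not all in `V`, with `ℚ`-independent rows and
`ℚ`-independent columns, is nonsingular.

The best approximation vectors are a very sparse sequence, about `log T` vectors of norm at most `T`, and so this does not
follow from the size of the exceptional set.

Proof. The starting theorem `RandomProducts` of this problem bounds the number of exceptional matrices with entries in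
`[-T, T]` by `C T^(n k - δ k)`. The matrices `α` with `‖(a α)_i - β_i‖ ≤ c |a| ^ (-τ)` form neighbourhoods of parallel affine
subspaces, covered by cubes of side `|a| ^ (-1 - τ)` (`Pool.Agent.N671.DA`).
-/

set_option autoImplicit false

namespace Pool.Agent.Results.MP_bbc1fa_nt.BestApproximations

open Module
open Pool.Agent.N671.DA (Near mat approx_matrices shrink)
open Pool.Agent.Results.MP_bbc1fa_nt.RandomProducts (adjoin logs FourExponentials)

/-- **Four exponentials at the best approximation vectors.** For all `n ≥ 1` and `m` there are `k₀` and `δ > 0` such that for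
all `k ≥ k₀` and all positive rational numbers `q_{j,r}` such that `q_{j,1}, …, q_{j,k}` are multiplicatively independent for
every `j ≤ n` the following is true. Let `V` be a rational space of real numbers of dimension at most `m`, `ζ ∈ ℝ^n`,
`β ∈ ℝ^h` and `τ > 0`. For all real matrices `α` with `n k` rows and `h` columns outside a set of Hausdorff dimension at most
`(n k - 1) h + (h + n k - δ k) / (1 + τ)` and all `c`, for all large integer vectors `a` with
`‖(a α)_i - β_i‖ ≤ c |a| ^ (-τ)` for `i = 1, …, h` the space `V' = V + ℚ l_1 + ⋯ + ℚ l_n`, where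
`l_j = ζ_j + ∑_r a_{j,r} log q_{j,r}`, has dimension `dim V + n`, and every `2 × 2` matrix with entries in `V'`, not all in
`V`, with `ℚ`-independent rows and `ℚ`-independent columns, is nonsingular. -/
theorem result (n m : ℕ) (hn : 1 ≤ n) : ∃ (k₀ : ℕ) (δ : ℝ), 0 < δ ∧ ∀ k ≥ k₀, ∀ q : Fin n → Fin k → ℚ,
    (∀ j r, 0 < q j r) → (∀ j, LinearIndependent ℚ (fun r => Real.log (q j r))) →
    ∀ V : Submodule ℚ ℝ, Module.Finite ℚ V → finrank ℚ V ≤ m → ∀ ζ : Fin n → ℝ,
    ∀ (h : ℕ) (β : Fin h → ℝ) (τ : ℝ), 0 < τ →
      ∃ E : Set (Fin (n * k) × Fin h → ℝ),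
        dimH E ≤ ENNReal.ofReal (((n : ℝ) * k - 1) * h + (h + ((n : ℝ) * k - δ * k)) / (1 + τ)) ∧
        ∀ α, α ∉ E → ∀ c : ℝ, ∃ Q : ℝ, ∀ a : Fin (n * k) → ℤ, Q ≤ ‖a‖ → Near α β a (c * ‖a‖ ^ (-τ)) →
          finrank ℚ (adjoin V (logs ζ q (mat a))) = finrank ℚ V + n ∧
            FourExponentials V (adjoin V (logs ζ q (mat a))) := by
  obtain ⟨k₀, C, δ, hδ, hR⟩ := RandomProducts.result n m
  refine ⟨max k₀ 1, min δ 1, lt_min hδ one_pos, fun k hk q hq hli V hV hVm ζ h β τ hτ => ?_⟩
  have hk1 : 1 ≤ k := (le_max_right _ _).trans hk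
  obtain ⟨E, hE, hE2⟩ := approx_matrices (n := n) (k := k) (h := h) (C₀ := (C : ℝ)) (δ := min δ 1)
    (Nat.one_le_iff_ne_zero.2 (by positivity))
    (fun a : Fin n → Fin k → ℚ => ¬ (finrank ℚ (adjoin V (logs ζ q a)) = finrank ℚ V + n ∧
        FourExponentials V (adjoin V (logs ζ q a))))
    (Nat.cast_nonneg C) (lt_min hδ one_pos) (min_le_right _ _)
    (fun A hA => by
      have h9 := (hR k ((le_max_left _ _).trans hk) q hq hli A hA V hV hVm ζ).trans
        (shrink (n := n) (k := k) (δ := δ) (Nat.cast_nonneg C) hA.card_pos)
      refine le_of_eq_of_le ?_ h9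
      congr!) β hτ
  refine ⟨E, hE, fun α hα c => ?_⟩
  obtain ⟨Q, hQ⟩ := hE2 α hα c
  exact ⟨Q, fun a ha h1 => not_not.1 (hQ a ha h1)⟩

end Pool.Agent.Results.MP_bbc1fa_nt.BestApproximations
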