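import Pool.Agent.N770.RowsLogs

/-!
# Four exponentials: all second rows over a group of rank `n` have rank at most `n ^ 2` together

Let `G` be a group of rank `n` of positive rational (or algebraic) numbers, and `V` the rational space
spanned by the logarithms of its elements.  A counterexample to the four exponentials conjecture with
first row in `G` consists of multiplicatively independent `a`, `b` in `G` (or in its division group)
and an irrational real number `t` for which `a ^ t` and `b ^ t` are algebraic.  The six exponentials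
theorem says that for a given `t` there is at most one such plane `⟨log a, log b⟩`.  Here `t` is
arbitrary.

(1) All these numbers `a ^ t`, for all `a`, `b` and `t`, generate together with `G` a group of rank at
most `n ^ 2`.  So all counterexamples with first row in `G`, with ARBITRARY second rows, belong to one
group of rank at most `n ^ 2`.  (The four exponentials conjecture says that the rank is `n`.)  For
`n = 2` the bound is the rank `4` of a counterexample with independent entries.

(2) is the same for complex logarithms.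

(3) Let `X` be an arbitrary `d`-dimensional space of complex numbers over the field of the algebraic
numbers (for instance the space of the polynomials of degree less than `d` in a given number), and
`e ≥ 2`.  If `y` is a complex number, call `y X` rich if it contains at least `e` logarithms of
algebraic numbers which are linearly independent over `ℚ`.  All logarithms of algebraic numbers
belonging to such `e`-tuples in `y X`, for all rich `y X`, lie in one rational space of dimension at
most `2 d (d - 1) / (e - 1)`.

The proof: let `W` be a space, over the field of the algebraic numbers, of linear forms in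
logarithms.  By the hyperplane case of the linear subgroup theorem (Waldschmidt, Roy) the kernel of
the multiplication map `X ⊗ W → X W` has dimension at most `d (d - 1)`.  If `y U`, `U ⊂ X`, is added
to `W`, the dimension of this kernel grows by at least `p (p - 1) / 2 - q (q - 1) / 2`, where `p` is the
dimension of `U` and `q` that of `W ∩ y U` (`Pool.Agent.N770.Def.block`), because of the relations
`u (y u') = u' (y u)`.  For `X = V` one starts with `W = V` and a kernel of dimension at least
`n (n - 1) / 2`.
-/

set_option autoImplicit false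

namespace Pool.Agent.Results.MP_bbc1fa_nt.SecondRowsOfBoundedRank

open Module

/-- `c = a ^ t` is an entry of the second row of a matrix with first row `a`, `b`: the logarithms of
the positive numbers `a`, `b` belong to `V` and are linearly independent over `ℚ`, and `a ^ t`, `b ^ t`
are algebraic -/
def SecondRow (V : Submodule ℚ ℝ) (c : ℝ) : Prop :=
  ∃ a b t : ℝ, 0 < a ∧ 0 < b ∧ Real.log a ∈ V ∧ Real.log b ∈ V ∧
    LinearIndependent ℚ ![Real.log a, Real.log b] ∧
    IsAlgebraic ℚ (a ^ t) ∧ IsAlgebraic ℚ (b ^ t) ∧ c = a ^ t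

/-- `z = t x` for complex numbers `t`, `x` and `x'`, such that `x`, `x'` belong to `V` and are linearly
independent over `ℚ`, and the exponentials of `t x` and `t x'` are algebraic -/
def SecondRowC (V : Submodule ℚ ℂ) (z : ℂ) : Prop :=
  ∃ t x x' : ℂ, x ∈ V ∧ x' ∈ V ∧ LinearIndependent ℚ ![x, x'] ∧
    IsAlgebraic ℚ (Complex.exp (t * x)) ∧ IsAlgebraic ℚ (Complex.exp (t * x')) ∧ z = t * x

/-- `z` belongs to a set of `e` logarithms of algebraic numbers, linearly independent over `ℚ`, which
is contained in `y X` for some complex number `y` -/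
def InBlock (X : Submodule (algebraicClosure ℚ ℂ) ℂ) (e : ℕ) (z : ℂ) : Prop :=
  ∃ (y : ℂ) (x : Fin e → ℂ), (∀ i, x i ∈ X) ∧ LinearIndependent ℚ (fun i => y * x i) ∧
    (∀ i, IsAlgebraic ℚ (Complex.exp (y * x i))) ∧ ∃ i, z = y * x i

/-- the inclusion of the real numbers -/
noncomputable def φ : ℝ →ₗ[ℚ] ℂ where
  toFun x := x
  map_add' := Complex.ofReal_add
  map_smul' a x := by
    rw [Rat.smul_def, Rat.smul_def, Complex.ofReal_mul, Complex.ofReal_ratCast]
    rfl

theorem φ_inj : Function.Injective φ := Complex.ofReal_injective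

theorem result :
    -- (1) positive real numbers
    (∀ V : Submodule ℚ ℝ, Module.Finite ℚ V → (∀ v ∈ V, IsAlgebraic ℚ (Real.exp v)) →
      Module.Finite ℚ (V ⊔ Submodule.span ℚ (Real.log '' {c | SecondRow V c}) : Submodule ℚ ℝ) ∧
      finrank ℚ (V ⊔ Submodule.span ℚ (Real.log '' {c | SecondRow V c}) : Submodule ℚ ℝ) ≤
        finrank ℚ V ^ 2) ∧
    -- (2) complex logarithms
    (∀ V : Submodule ℚ ℂ, Module.Finite ℚ V → (∀ v ∈ V, IsAlgebraic ℚ (Complex.exp v)) →
      Module.Finite ℚ (V ⊔ Submodule.span ℚ {z | SecondRowC V z} : Submodule ℚ ℂ) ∧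
      finrank ℚ (V ⊔ Submodule.span ℚ {z | SecondRowC V z} : Submodule ℚ ℂ) ≤ finrank ℚ V ^ 2) ∧
    -- (3) an arbitrary space
    (∀ (X : Submodule (algebraicClosure ℚ ℂ) ℂ), Module.Finite (algebraicClosure ℚ ℂ) X →
      ∀ e : ℕ, 2 ≤ e → Module.Finite ℚ (Submodule.span ℚ {z | InBlock X e z}) ∧
      (e - 1) * finrank ℚ (Submodule.span ℚ {z | InBlock X e z}) ≤
        2 * (finrank (algebraicClosure ℚ ℂ) X * (finrank (algebraicClosure ℚ ℂ) X - 1))) := by
  have h2 : ∀ V : Submodule ℚ ℂ, Module.Finite ℚ V → (∀ v ∈ V, IsAlgebraic ℚ (Complex.exp v)) →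
      Module.Finite ℚ (V ⊔ Submodule.span ℚ {z | SecondRowC V z} : Submodule ℚ ℂ) ∧
      finrank ℚ (V ⊔ Submodule.span ℚ {z | SecondRowC V z} : Submodule ℚ ℂ) ≤ finrank ℚ V ^ 2 :=
    fun V hVf hV => Pool.Agent.N770.rows_sq V hVf hV _ (fun z hz => hz)
  refine ⟨?_, h2, ?_⟩
  · intro V hVf hV
    have hVf' : Module.Finite ℚ (V.map φ) := Module.Finite.map V φ
    have hV' : ∀ v ∈ V.map φ, IsAlgebraic ℚ (Complex.exp v) := by
      rintro _ ⟨v, hv, rfl⟩
      have h1 : Complex.exp (φ v) = ((Real.exp v : ℝ) : ℂ) := (Complex.ofReal_exp v).symm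
      rw [h1]
      exact (hV v hv).algebraMap (A := ℂ)
    obtain ⟨h3, h4⟩ := h2 (V.map φ) hVf' hV'
    have hle : (V ⊔ Submodule.span ℚ (Real.log '' {c | SecondRow V c}) : Submodule ℚ ℝ).map φ ≤
        V.map φ ⊔ Submodule.span ℚ {z | SecondRowC (V.map φ) z} := by
      rw [Submodule.map_sup, Submodule.map_span]
      refine sup_le_sup le_rfl (Submodule.span_mono ?_)
      rintro _ ⟨_, ⟨c, ⟨a, b, t, ha, hb, hla, hlb, hli, hat, hbt, rfl⟩, rfl⟩, rfl⟩
      refine ⟨t, φ (Real.log a), φ (Real.log b), ⟨_, hla, rfl⟩, ⟨_, hlb, rfl⟩, ?_, ?_, ?_, ?_⟩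
      · have h5 : ![φ (Real.log a), φ (Real.log b)] = φ ∘ ![Real.log a, Real.log b] := by
          funext i
          fin_cases i <;> rfl
        rw [h5]
        exact hli.map' φ (LinearMap.ker_eq_bot.2 φ_inj)
      · have h5 : Complex.exp (t * φ (Real.log a)) = ((a ^ t : ℝ) : ℂ) := by
          rw [Real.rpow_def_of_pos ha, mul_comm (Real.log a)]
          change Complex.exp ((t : ℂ) * ((Real.log a : ℝ) : ℂ)) = _
          rw [← Complex.ofReal_mul, Complex.ofReal_exp]
        rw [h5]
        exact hat.algebraMap (A := ℂ)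
      · have h5 : Complex.exp (t * φ (Real.log b)) = ((b ^ t : ℝ) : ℂ) := by
          rw [Real.rpow_def_of_pos hb, mul_comm (Real.log b)]
          change Complex.exp ((t : ℂ) * ((Real.log b : ℝ) : ℂ)) = _
          rw [← Complex.ofReal_mul, Complex.ofReal_exp]
        rw [h5]
        exact hbt.algebraMap (A := ℂ)
      · rw [Real.log_rpow ha]
        exact Complex.ofReal_mul t (Real.log a)
    set S := (V ⊔ Submodule.span ℚ (Real.log '' {c | SecondRow V c}) : Submodule ℚ ℝ) with hS
    have e1 : S ≃ₗ[ℚ] S.map φ := Submodule.equivMapOfInjective φ φ_inj S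
    have hfin : Module.Finite ℚ (S.map φ) := Submodule.finiteDimensional_of_le hle
    have e2 : finrank ℚ (V.map φ) = finrank ℚ V :=
      (Submodule.equivMapOfInjective φ φ_inj V).finrank_eq.symm
    refine ⟨Module.Finite.equiv e1.symm, ?_⟩
    rw [e1.finrank_eq, ← e2]
    exact (Submodule.finrank_mono hle).trans h4
  · intro X hXf e he
    obtain ⟨c, rfl⟩ : ∃ c, e = c + 1 := ⟨e - 1, by omega⟩
    rw [Nat.add_sub_cancel]
    refine Pool.Agent.N770.rows_any X hXf c (by omega) _ ?_
    rintro z ⟨y, x, hx, hli, h1, i, rfl⟩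
    refine ⟨y, x ∘ Equiv.swap 0 i, fun j => hx _, ?_, fun j => h1 _, ?_⟩
    · exact hli.comp _ (Equiv.injective _)
    · rw [Function.comp_apply, Equiv.swap_apply_left]

end Pool.Agent.Results.MP_bbc1fa_nt.SecondRowsOfBoundedRank
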