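import Pool.Agent.N886.SE.Unif

/-!
# Nearly singular matrices of logarithms of rational numbers

There is an absolute constant `C` such that for all `H ≥ 2`:

1. if the `3 × 2` matrix of the logarithms of positive rational numbers with numerators and denominators at most `H` has
   `ℚ`-linearly independent rows and `ℚ`-linearly independent columns, then every row belongs to a `2 × 2` minor of
   absolute value greater than `exp (- C (log H) ^ 16)`;
2. the number of the quadruples of integers `a, b, c, d` in `[2, H]` with `log a`, `log b` linearly independent over `ℚ`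
   and `|log a log d - log b log c| ≤ exp (- C (log H) ^ 16)` is at most `H ^ 2 (log H / log 2 + 1) ^ 2`.

The proof: an interpolation determinant of the exponential functions with the real frequencies `a + b θ` at the real
points `h₁ l₁ + h₂ l₂ + h₃ l₃` (`l_i` the first column, `θ` the ratio of the columns) lies between two explicit positive
bounds, by a recursion for determinants of exponentials as integrals over interlacing points.  No zero estimate is needed.
-/

set_option autoImplicit false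

namespace Pool.Agent.Results.MP_bbc1fa_nt.UniformSixExponentials

open Pool.Agent.N886.SE Finset

/-- the quadruples `((a, b), (c, d))` of integers in `[2, H]` with `log a`, `log b` linearly independent over `ℚ` and
`|log a log d - log b log c| ≤ ε` -/
def NearSingular (H : ℕ) (ε : ℝ) : Set ((ℕ × ℕ) × (ℕ × ℕ)) :=
  {v | (2 ≤ v.1.1 ∧ v.1.1 ≤ H) ∧ (2 ≤ v.1.2 ∧ v.1.2 ≤ H) ∧ (2 ≤ v.2.1 ∧ v.2.1 ≤ H) ∧ (2 ≤ v.2.2 ∧ v.2.2 ≤ H) ∧
    LinearIndependent ℚ ![Real.log v.1.1, Real.log v.1.2] ∧
    |Real.log v.1.1 * Real.log v.2.2 - Real.log v.1.2 * Real.log v.2.1| ≤ ε}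

theorem rows_dep {ι κ : Type} [Fintype ι] (M : ι → κ → ℝ) (hM : LinearIndependent ℚ M) (d : ι → ℤ)
    (h : ∀ j, ∑ i, (d i : ℝ) * M i j = 0) : d = 0 := by
  rw [Fintype.linearIndependent_iff] at hM
  have h1 := hM (fun i => (d i : ℚ)) (by
    funext j
    rw [Finset.sum_apply]
    have : ∀ i, (((d i : ℚ) • M i) j) = (d i : ℝ) * M i j := fun i => by
      rw [Pi.smul_apply, Rat.smul_def]
      push_cast
      rfl
    simp only [this]
    exact h j)
  funext i
  exact_mod_cast h1 i

theorem pair_dep {a b : ℝ} (h : LinearIndependent ℚ ![a, b]) (x y : ℤ) (hxy : (x : ℝ) * a + y * b = 0) :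
    x = 0 ∧ y = 0 := by
  rw [LinearIndependent.pair_iff] at h
  have h1 := h x y (by
    rw [Rat.smul_def, Rat.smul_def]
    push_cast
    exact hxy)
  exact ⟨by exact_mod_cast h1.1, by exact_mod_cast h1.2⟩

/-- one row -/
theorem part_one {H : ℕ} (hH : 2 ≤ H) (a : Fin 3 → Fin 2 → ℚ)
    (ha : ∀ i j, 0 < a i j ∧ (a i j).num ≤ H ∧ (a i j).den ≤ H)
    (hrow : LinearIndependent ℚ (fun i j => Real.log (a i j)))
    (hcol : LinearIndependent ℚ (fun j i => Real.log (a i j))) (i : Fin 3) :
    ∃ j, Real.exp (-(C0 * Real.log H ^ 16)) <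
      |Real.log (a i 0) * Real.log (a j 1) - Real.log (a i 1) * Real.log (a j 0)| := by
  by_contra hcon
  push Not at hcon
  set σ : Equiv.Perm (Fin 3) := Equiv.swap 0 i with hσ
  have hσ0 : σ 0 = i := Equiv.swap_apply_left 0 i
  have hss : ∀ m, σ (σ m) = m := fun m => Equiv.swap_apply_self _ _ _
  rcases row_zero hH (fun m j => a (σ m) j) (fun m j => (ha _ j).1) (fun m j => (ha _ j).2.1)
    (fun m j => (ha _ j).2.2) (fun j => by
      show |Real.log (a (σ 0) 0) * Real.log (a (σ j) 1) - Real.log (a (σ 0) 1) * Real.log (a (σ j) 0)| ≤ _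
      rw [hσ0]
      exact hcon (σ j)) with ⟨d, hd, h1⟩ | ⟨x, y, hxy, h1⟩
  · have h2 := rows_dep _ hrow (fun m => d (σ m)) (fun j => by
      rw [← h1 j, ← Equiv.sum_comp σ fun m => (d m : ℝ) * Real.log ((a (σ m) j : ℚ) : ℝ)]
      refine sum_congr rfl fun m _ => ?_
      rw [hss])
    apply hd
    funext m
    have := congrFun h2 (σ m)
    simp only [hss] at this
    exact this
  · have h2 := rows_dep _ hcol ![x, y] (fun m => by
      rw [Fin.sum_univ_two]
      have := h1 (σ m)
      simp only [hss] at this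
      simpa using this)
    have e1 := congrFun h2 0
    have e2 := congrFun h2 1
    simp at e1 e2
    omega

/-- the second rows for a given first row -/
theorem fiber {H : ℕ} (hH : 2 ≤ H) {a b : ℕ} (ha : 2 ≤ a) (haH : a ≤ H) (hb : 2 ≤ b) (hbH : b ≤ H)
    (hind : LinearIndependent ℚ ![Real.log a, Real.log b]) (F : Finset (ℕ × ℕ))
    (hF : ∀ v ∈ F, (2 ≤ v.1 ∧ v.1 ≤ H) ∧ (2 ≤ v.2 ∧ v.2 ≤ H) ∧
      |Real.log a * Real.log v.2 - Real.log b * Real.log v.1| ≤ Real.exp (-(C0 * Real.log H ^ 16))) :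
    F.card ≤ (Nat.log 2 H + 1) ^ 2 := by
  obtain ⟨R, L, hL, hRL, hHL, hC⟩ := exists_R' hH
  set ε : ℝ := Real.exp (-(C0 * Real.log H ^ 16)) with hε
  have hR666 : (666 : ℝ) ≤ R := by linarith
  have hεs : 4 * ε < Real.exp (-L) := by
    have h4 : (4 : ℝ) ≤ Real.exp 3 := by
      have := Real.add_one_le_exp (3 : ℝ)
      linarith
    calc 4 * ε ≤ Real.exp 3 * Real.exp (-(3 * (R : ℝ) ^ 16)) :=
          mul_le_mul h4 (Real.exp_le_exp.2 (by linarith)) (Real.exp_pos _).le (Real.exp_pos _).le
      _ = Real.exp (3 + -(3 * (R : ℝ) ^ 16)) := (Real.exp_add _ _).symm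
      _ < _ := by
          refine Real.exp_lt_exp.2 ?_
          have : (R : ℝ) ≤ (R : ℝ) ^ 16 := le_self_pow₀ (by linarith) (by norm_num)
          linarith
  have hla : 1 / 2 ≤ Real.log a := by
    have h1 : Real.log 2 ≤ Real.log a := Real.log_le_log (by norm_num) (by exact_mod_cast ha)
    have := Real.log_two_gt_d9
    linarith
  have hinj : Set.InjOn (fun v : ℕ × ℕ => v.1) F := by
    rintro ⟨c, d⟩ hv ⟨c', d'⟩ hv' heq
    simp only at heq
    subst heq
    have h1 := hF _ (mem_coe.1 hv)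
    have h2 := hF _ (mem_coe.1 hv')
    simp only at h1 h2
    by_contra hne
    have hdd : d ≠ d' := fun h => hne (by rw [h])
    have h3 := log_sub_log_ge (P := d) (Q := d') (by omega) (by omega) hdd (E := Real.exp L)
      ((by exact_mod_cast h1.2.1.2 : (d : ℝ) ≤ H).trans hHL)
      ((by exact_mod_cast h2.2.1.2 : (d' : ℝ) ≤ H).trans hHL)
    rw [← Real.exp_neg] at h3
    have h4 : |Real.log a * (Real.log d - Real.log d')| ≤ 2 * ε := by
      have e : Real.log a * (Real.log d - Real.log d') =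
          (Real.log a * Real.log d - Real.log b * Real.log c) -
          (Real.log a * Real.log d' - Real.log b * Real.log c) := by ring
      rw [e]
      refine (abs_sub _ _).trans ?_
      linarith [h1.2.2, h2.2.2]
    rw [abs_mul, abs_of_nonneg (by linarith : (0 : ℝ) ≤ Real.log a)] at h4
    nlinarith [abs_nonneg (Real.log d - Real.log d')]
  rw [← card_image_of_injOn hinj]
  refine card_le_base _ H a ha (fun n hn => ?_) fun c1 hc1 c2 hc2 => ?_
  · obtain ⟨v, hv, rfl⟩ := mem_image.1 hn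
    exact (hF v hv).1
  · obtain ⟨v1, hv1, rfl⟩ := mem_image.1 hc1
    obtain ⟨v2, hv2, rfl⟩ := mem_image.1 hc2
    have k1 := hF v1 hv1
    have k2 := hF v2 hv2
    set N : Fin 3 → Fin 2 → ℕ := ![![a, b], ![v1.1, v1.2], ![v2.1, v2.2]] with hN
    have hN2 : ∀ i j, 2 ≤ N i j ∧ N i j ≤ H := by
      intro i j
      fin_cases i <;> fin_cases j
      · exact ⟨ha, haH⟩
      · exact ⟨hb, hbH⟩
      · exact k1.1
      · exact k1.2.1
      · exact k2.1
      · exact k2.2.1
    have hcast : ∀ i j, (((N i j : ℚ)) : ℝ) = (N i j : ℝ) := fun i j => by simp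
    rcases row_zero hH (fun i j => (N i j : ℚ)) (fun i j => by
        have := (hN2 i j).1
        exact_mod_cast (by omega : 0 < N i j))
      (fun i j => by
        have := (hN2 i j).2
        simpa using this) (fun i j => by simpa using (by omega : 1 ≤ H)) (fun j => by
        simp only [hcast]
        fin_cases j
        · show |Real.log (a : ℝ) * Real.log (b : ℝ) - Real.log (b : ℝ) * Real.log (a : ℝ)| ≤ ε
          rw [mul_comm, sub_self, abs_zero]
          exact (Real.exp_pos _).le
        · exact k1.2.2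
        · exact k2.2.2) with ⟨d, hd, h1⟩ | ⟨x, y, hxy, h1⟩
    · refine rel_of_log (by omega) (by omega) (by omega) d hd ?_
      rw [← h1 0]
      refine sum_congr rfl fun m _ => ?_
      congr 2
      fin_cases m <;> simp [hN]
    · exfalso
      have h2 := h1 0
      have h3 : (x : ℝ) * Real.log a + y * Real.log b = 0 := by
        simpa [hN] using h2
      have := pair_dep hind x y h3
      omega

/-- **Main result.** -/
theorem result : ∃ C : ℝ, 0 < C ∧ ∀ H : ℕ, 2 ≤ H →
    (∀ a : Fin 3 → Fin 2 → ℚ, (∀ i j, 0 < a i j ∧ (a i j).num ≤ H ∧ (a i j).den ≤ H) →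
      LinearIndependent ℚ (fun i j => Real.log (a i j)) → LinearIndependent ℚ (fun j i => Real.log (a i j)) →
      ∀ i, ∃ j, Real.exp (-(C * Real.log H ^ 16)) <
        |Real.log (a i 0) * Real.log (a j 1) - Real.log (a i 1) * Real.log (a j 0)|) ∧
    (NearSingular H (Real.exp (-(C * Real.log H ^ 16)))).ncard ≤ H ^ 2 * (Nat.log 2 H + 1) ^ 2 := by
  refine ⟨C0, C0_pos, fun H hH => ⟨fun a ha hrow hcol i => part_one hH a ha hrow hcol i, ?_⟩⟩
  classical
  set ε : ℝ := Real.exp (-(C0 * Real.log H ^ 16)) with hε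
  set B : Finset ((ℕ × ℕ) × (ℕ × ℕ)) := (Icc 2 H ×ˢ Icc 2 H) ×ˢ (Icc 2 H ×ˢ Icc 2 H) with hB
  have hfin : (NearSingular H ε).Finite := by
    refine (Finset.finite_toSet B).subset ?_
    rintro ⟨⟨a, b⟩, ⟨c, d⟩⟩ ⟨h1, h2, h3, h4, _⟩
    rw [mem_coe, hB]
    simp only [mem_product, mem_Icc]
    exact ⟨⟨h1, h2⟩, h3, h4⟩
  rw [Set.ncard_eq_toFinset_card _ hfin]
  have h1 := Finset.card_le_mul_card_image (f := fun v : (ℕ × ℕ) × (ℕ × ℕ) => v.1) hfin.toFinset
    ((Nat.log 2 H + 1) ^ 2) (fun p hp => by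
      obtain ⟨v, hv, rfl⟩ := mem_image.1 hp
      have hv' : v ∈ NearSingular H ε := (Set.Finite.mem_toFinset hfin).1 hv
      have h2 : (hfin.toFinset.filter fun x => x.1 = v.1).card =
          ((hfin.toFinset.filter fun x => x.1 = v.1).image Prod.snd).card := by
        symm
        refine card_image_of_injOn ?_
        intro s hs t ht hst
        have e1 := (mem_filter.1 (mem_coe.1 hs)).2
        have e2 := (mem_filter.1 (mem_coe.1 ht)).2
        exact Prod.ext (e1.trans e2.symm) hst
      rw [h2]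
      refine fiber hH hv'.1.1 hv'.1.2 hv'.2.1.1 hv'.2.1.2 hv'.2.2.2.2.1 _ fun w hw => ?_
      obtain ⟨t, ht, rfl⟩ := mem_image.1 hw
      have e1 := (mem_filter.1 ht).2
      have e2 : t ∈ NearSingular H ε := (Set.Finite.mem_toFinset hfin).1 (mem_filter.1 ht).1
      refine ⟨e2.2.2.1, e2.2.2.2.1, ?_⟩
      rw [← e1]
      exact e2.2.2.2.2.2)
  have h2 : (hfin.toFinset.image fun v : (ℕ × ℕ) × (ℕ × ℕ) => v.1).card ≤ H ^ 2 := by
    have h3 : (hfin.toFinset.image fun v : (ℕ × ℕ) × (ℕ × ℕ) => v.1) ⊆ Icc 1 H ×ˢ Icc 1 H := by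
      intro p hp
      obtain ⟨v, hv, rfl⟩ := mem_image.1 hp
      have hv' : v ∈ NearSingular H ε := (Set.Finite.mem_toFinset hfin).1 hv
      rw [mem_product, mem_Icc, mem_Icc]
      have e1 := hv'.1
      have e2 := hv'.2.1
      omega
    refine (card_le_card h3).trans ?_
    rw [card_product, Nat.card_Icc, Nat.add_sub_cancel]
    exact (sq H).ge
  calc hfin.toFinset.card ≤ (Nat.log 2 H + 1) ^ 2 * _ := h1
    _ ≤ (Nat.log 2 H + 1) ^ 2 * H ^ 2 := Nat.mul_le_mul_left _ h2
    _ = _ := mul_comm _ _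

end Pool.Agent.Results.MP_bbc1fa_nt.UniformSixExponentials
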